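import Pool.Agent.helper88.MB.C

/-!
# Tate characters of Fermat varieties of arbitrary dimension

`π : Fin (2 d) → Fin s` describes a product of `s` Fermat varieties of degree `m` with `2 d`
coordinates. Let `Λ` be the set of the odd primes dividing `m`, together with `4` if `4 ∣ m`; call
`x ∈ Λ` of type `N` if `x = 4` or `x ≡ 3 mod 4`. Suppose that

* for all `x < y` in `Λ` either both are of type `N`, or `x y` is one of
  `15, 20, 35, 39, 51, 52, 55, 68`, or `y > c d + 1`, where `c = 8` for `x = 3` (`c = 4` if `m` is
  odd), `c = 4` for `x = 4`, `c = 4` for `x = 5` (`c = 2` if `m` is odd) and `c = 2` for `x ≥ 7`;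
* any four distinct elements of `Λ` which are at most `max (2 d + 1, 7)` are all of type `N`.

Then every Tate character is trivial up to standard elements (pairs and Davenport–Hasse elements),
Lefschetz classes and congruence classes.

For example, for every `d ≥ 1` all degrees `m` are covered whose prime factors `p ≡ 1 mod 4`
satisfy `p > 8 d + 1` (there is no condition on the prime factors `p ≡ 3 mod 4`), and all Fermat
sixfolds (`d = 4`) of degree not divisible by `130, 170, 174, 420`.

## Why this gives the conjectures of Tate and Hodge (not formalised)

Lefschetz classes are algebraic:

Let `b_1, …, b_s` (the blocks) be vectors of nonzero residues modulo `N` with sum zero, with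
`k_l ≥ 3` entries, `k = ∑ k_l`. Let `X` be the product of the Fermat varieties of degree `N` and
dimensions `k_l - 2`, and `Y` its quotient by the kernel of the character `b = (b_1, …, b_s)`.
Suppose that the system of blocks is ruled: some multiset consisting of `n_l` copies of `b_l`
contains more than `∑ n_l` disjoint nonempty multisets with sum zero. Then there are vectors
`w_j ∈ ℕ^k`, `w_j ≠ 0`, `w_j · b = 0`, and rational numbers `c_j > 0`, `n_l ≥ 0` such that
`∑ c_j w_j` is constant `n_l` on the block `l` and `∑ c_j > ∑ n_l`. By linear programming we can
assume that, modulo the indicator vectors of the blocks, this is the only linear relation between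
the `w_j`. They are lattice points for the torus containing an open part of `Y`, namely the
rays of a fake weighted projective space `F` in which the closure `Z` of this open part (or of the
fibres of a fibration of it, when there are few `w_j`) is a component of the intersection of the
hypersurfaces `∑_{i ∈ b_l} ∏_j y_j ^ (w_j)_i = 0`. For the grading `deg y_j = c_j` these have
degrees `n_l`, and the anticanonical degree of `F` is `∑ c_j > ∑ n_l`. By adjunction (step by step,
on normalisations, where the different is effective) the canonical divisor of the normalisation of
`Z` has negative degree on general complete intersection curves. So `Z` is uniruled (Miyaoka and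
Mori) if its dimension is positive. If its dimension is zero, the same inequality shows that the
fibres are single points, and that `Y` is birational to a variety of the same kind times a torus;
so `Y` is uniruled in all cases. (In terms of toric geometry: the Fine interior is empty.)

If `∑ (k_l - 2) = 3`, the threefold `Y` is uniruled, and by Bloch and Srinivas its third cohomology
is, through algebraic correspondences, a direct summand of the first cohomology of curves
(twisted). It contains the line attached to `b`. The same holds for the cohomology of the Fermat
curve attached to one vector with three entries. If `v` and `w` are two such pieces and `v + w` is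
a Tate character, it therefore corresponds to a Tate class in `H^1(C) ⊗ H^1(C')` for two curves,
which is algebraic (Lefschetz's theorem on `(1, 1)`-classes, or Faltings). By the inductive
structure (Shioda and Katsura) the Tate class attached to `v + w` is algebraic.

Congruence classes are algebraic: the Fermat motive of a congruence class is, by algebraic
correspondences, the determinant of the `ϱ`-part of `H¹(X(N))`, and a product of first cohomology
groups of elliptic curves with complex multiplication because of the Hecke correspondences. The
proof is written down in `Pool/Agent/Results/MP_3703a7_ag/ThreeModFour.lean`.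
-/

namespace Pool.Agent.Results.MP_3703a7_ag.AllDimensions

open Pool.Agent.helper76.FV Pool.Agent.helper34.DH Pool.Agent.helper76.LP Pool.Agent.helper76.UR
  Pool.Agent.helper88.MB

/-- `IsTateChar m π a`: all entries of `a` are nonzero, the sums over the factors vanish and the
square of the normalised product of Gauss sums is a root of unity for all primes `p ≡ 1 mod m`.
`EquivMod IsLefCong (pts a) 0`: the multiset of the `a_i / m` becomes trivial after adding standard
elements, Lefschetz classes and congruence classes. -/
theorem result (d m : ℕ) (hm : 0 < m)
    (h : ∀ x y : ℕ, x ∣ m → y ∣ m → (x = 4 ∨ x.Prime ∧ Odd x) → (y = 4 ∨ y.Prime ∧ Odd y) →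
      x < y → ((x = 4 ∨ x % 4 = 3) ∧ (y = 4 ∨ y % 4 = 3)) ∨
      x * y ∈ ({15, 20, 35, 39, 51, 52, 55, 68} : Finset ℕ) ∨
      (if x = 3 then (if Even m then 8 else 4) else if x = 4 then 4 else
        if x = 5 then (if Even m then 4 else 2) else 2) * d + 1 < y)
    (h4 : ∀ S : Finset ℕ, S.card = 4 →
      (∀ x ∈ S, x ∣ m ∧ (x = 4 ∨ x.Prime ∧ Odd x) ∧ x ≤ max (2 * d + 1) 7) →
      ∀ x ∈ S, x = 4 ∨ x % 4 = 3)
    {s : ℕ} (π : Fin (2 * d) → Fin s) (a : Fin (2 * d) → ZMod m) :
    IsTateChar m π a ↔ (∀ i, a i ≠ 0) ∧ BlockZero π a ∧ EquivMod IsLefCong (pts a) 0 := by
  refine tate_all_C d m hm ?_ (fun S hS hS2 => h4 S hS fun x hx => ?_) π a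
  swap
  · exact ⟨(hS2 x hx).1.1, (hS2 x hx).1.2, (hS2 x hx).2⟩
  intro x y hx hy hxy
  rcases h x y hx.1 hy.1 hx.2 hy.2 hxy with h1 | h1 | h1
  · exact Or.inl (Or.inr (Or.inr h1))
  · left
    simp only [Finset.mem_insert, Finset.mem_singleton] at h1
    by_cases h55 : x * y = 55
    · exact Or.inr (Or.inl h55)
    · left
      unfold GP
      simp only [Finset.mem_insert, Finset.mem_singleton]
      omega
  · right
    by_cases he : Even m
    · have ho : ¬ Odd m := Nat.not_odd_iff_even.2 he
      simp only [he, if_true] at h1
      refine ⟨?_, ?_, ?_, ?_⟩
      · split_ifs at h1 <;> omega
      · rintro rfl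
        simp only [if_true] at h1
        exact Or.inl h1
      · rintro rfl
        norm_num at h1
        exact h1
      · rintro rfl
        norm_num at h1
        exact Or.inl h1
    · have ho : Odd m := Nat.not_even_iff_odd.1 he
      simp only [he, if_false] at h1
      refine ⟨?_, ?_, ?_, ?_⟩
      · split_ifs at h1 <;> omega
      · rintro rfl
        simp only [if_true] at h1
        exact Or.inr ⟨ho, h1⟩
      · rintro rfl
        norm_num at h1
        exact h1
      · rintro rfl
        exact Or.inr ho

end Pool.Agent.Results.MP_3703a7_ag.AllDimensions
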