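import Pool.Agent.helper88.CM.Bounded

/-!
# Tate classes of bounded codimension on products of CM abelian varieties

For arbitrary CM fields `E i` of degree at least `2 g`, all but an exponentially small proportion
of the families of CM types have the property that all Tate classes of codimension at most `r` on
all products of powers of the corresponding abelian varieties are polynomials in divisor classes.
-/

namespace Pool.Agent.Results.MP_3703a7_ag.BoundedCodimension

open Pool.Agent.helper88.CM NumberField

theorem result {ι : Type} [Fintype ι] (E : ι → Type) [∀ i, Field (E i)] [∀ i, NumberField (E i)]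
    [∀ i, IsCMField (E i)] (g r : ℕ) (hr : 1 ≤ r)
    (hg : ∀ i, 2 * g ≤ Module.finrank ℚ (E i)) :
    (Nat.card {Φ : ∀ i, CMType (E i) // ¬ TateByDivisors E r Φ} : ℝ) ≤
      (1 + ∑ i, (Module.finrank ℚ (E i) : ℝ)) ^ (2 * r) * (2 : ℝ) ^ (-((g : ℝ) / (2 * r))) *
        Nat.card (∀ i, CMType (E i)) :=
  bounded E g r hr hg

end Pool.Agent.Results.MP_3703a7_ag.BoundedCodimension
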