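import Pool.Agent.helper64.Circ
import Pool.Agent.helper64.Planted

/-!
# No bounded-depth ept-reduction from `p-CLIQUE` to `p-MC(Σ₁)`

Every reduction from the `k`-clique problem on graphs with `n` vertices to model checking of
`Σ₁`-sentences which is computed by circuits of constant depth and size `n^{O(1)}` (nonuniform
`AC⁰`) has to put out sentences of length `Ω(k²)`, for all `n` and `k` with `k ≤ O(log n)`.  In
particular no ept-reduction from `p-CLIQUE` to `p-MC(Σ₁)` is computed by circuits of constant depth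
and size `2^{O(k)} n^{O(1)}`.
-/

open Finset FirstOrder

set_option linter.style.haveILetI false

namespace Pool.Agent.Results.MP_2b48c2_lc.BoundedDepth

open Pool.Agent.helper64

section Preservation

variable {L : FirstOrder.Language.{0, 0}} (hL : L.IsRelational) {N : ℕ}

/-- The variable which is the given term (the vocabulary is relational). -/
def tvar {n : ℕ} : L.Term (Empty ⊕ Fin n) → Fin n
  | .var (Sum.inl e) => e.elim
  | .var (Sum.inr i) => i
  | .func f _ => ((hL _).false f).elim

theorem realize_tvar {n : ℕ} {M : Type} [L.Structure M] (v : Empty → M) (xs : Fin n → M)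
    (t : L.Term (Empty ⊕ Fin n)) : t.realize (Sum.elim v xs) = xs (tvar hL t) := by
  match t with
  | .var (Sum.inl e) => exact e.elim
  | .var (Sum.inr i) => rfl
  | .func f _ => exact ((hL _).false f).elim

/-- Satisfaction in the structure given by `D` and `h`. -/
def Sat (D : Set (Fin N)) (h : ∀ a : ℕ, L.Relations a → (Fin a → Fin N) → Prop) {n : ℕ}
    (φ : L.BoundedFormula Empty n) (xs : Fin n → D) : Prop :=
  @FirstOrder.Language.BoundedFormula.Realize L D (mkStr hL D h) Empty n φ default xs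

/-- The facts about a structure: atomic facts and membership in the universe. -/
abbrev Fact (L : FirstOrder.Language.{0, 0}) (N : ℕ) : Type :=
  (Σ a : ℕ, L.Relations a × (Fin a → Fin N)) ⊕ Fin N

/-- Two structures agree on a fact. -/
def Agree (D D' : Set (Fin N)) (h h' : ∀ a : ℕ, L.Relations a → (Fin a → Fin N) → Prop) :
    Fact L N → Prop
  | Sum.inl ⟨a, R, t⟩ => (h a R t ↔ h' a R t)
  | Sum.inr x => (x ∈ D ↔ x ∈ D')

/-- The number of symbols used for a fact. -/
def cost : Fact L N → ℕ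
  | Sum.inl ⟨a, _, _⟩ => a + 1
  | Sum.inr _ => 1

variable {E : Type} (cert : Fact L N → Finset E) (hcert : ∀ f, (cert f).card ≤ cost f)

include hcert in
theorem qf_preserved (D : Set (Fin N)) (h : ∀ a : ℕ, L.Relations a → (Fin a → Fin N) → Prop)
    {n : ℕ} (φ : L.BoundedFormula Empty n) (hφ : φ.IsQF) (xs : Fin n → D) :
    ∃ T : Finset E, T.card ≤ len φ ∧
      ∀ (D' : Set (Fin N)) (h' : ∀ a : ℕ, L.Relations a → (Fin a → Fin N) → Prop)
        (xs' : Fin n → D'), (∀ i, (xs' i : Fin N) = xs i) →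
        (∀ f, cert f ⊆ T → Agree D D' h h' f) →
        (Sat hL D h φ xs ↔ Sat hL D' h' φ xs') := by
  classical
  induction hφ with
  | falsum =>
    refine ⟨∅, by simp, ?_⟩
    intro D' h' xs' _ _
    exact Iff.rfl
  | @of_isAtomic φ hat =>
    cases hat with
    | equal t₁ t₂ =>
      refine ⟨∅, by simp, ?_⟩
      intro D' h' xs' hxs _
      have e1 : Sat hL D h (t₁.bdEqual t₂) xs ↔ xs (tvar hL t₁) = xs (tvar hL t₂) := by
        letI := mkStr hL D h
        show t₁.realize (Sum.elim default xs) = t₂.realize (Sum.elim default xs) ↔ _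
        rw [realize_tvar hL, realize_tvar hL]
      have e2 : Sat hL D' h' (t₁.bdEqual t₂) xs' ↔ xs' (tvar hL t₁) = xs' (tvar hL t₂) := by
        letI := mkStr hL D' h'
        show t₁.realize (Sum.elim default xs') = t₂.realize (Sum.elim default xs') ↔ _
        rw [realize_tvar hL, realize_tvar hL]
      rw [e1, e2, Subtype.ext_iff, Subtype.ext_iff, hxs, hxs]
    | @rel a R ts =>
      refine ⟨cert (Sum.inl ⟨a, R, fun i => (xs (tvar hL (ts i)) : Fin N)⟩), ?_, ?_⟩
      · exact hcert _
      · intro D' h' xs' hxs hagree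
        have e1 : Sat hL D h (R.boundedFormula ts) xs ↔
            h a R (fun i => (xs (tvar hL (ts i)) : Fin N)) := by
          letI := mkStr hL D h
          have : (fun i => (ts i).realize (Sum.elim default xs)) =
              fun i => xs (tvar hL (ts i)) := by
            funext i
            exact realize_tvar hL _ _ _
          show h a R (fun i => ((fun i => (ts i).realize (Sum.elim default xs)) i : D)) ↔ _
          rw [this]
        have e2 : Sat hL D' h' (R.boundedFormula ts) xs' ↔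
            h' a R (fun i => (xs' (tvar hL (ts i)) : Fin N)) := by
          letI := mkStr hL D' h'
          have : (fun i => (ts i).realize (Sum.elim default xs')) =
              fun i => xs' (tvar hL (ts i)) := by
            funext i
            exact realize_tvar hL _ _ _
          show h' a R (fun i => ((fun i => (ts i).realize (Sum.elim default xs')) i : D')) ↔ _
          rw [this]
        rw [e1, e2]
        have h1 := hagree _ (Finset.Subset.refl _)
        have h2 : (fun i => (xs' (tvar hL (ts i)) : Fin N)) =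
            fun i => (xs (tvar hL (ts i)) : Fin N) := by
          funext i; exact hxs _
        rw [h2]
        exact h1
  | @imp φ ψ _ _ ih1 ih2 =>
    obtain ⟨T1, hT1, h1⟩ := ih1
    obtain ⟨T2, hT2, h2⟩ := ih2
    refine ⟨T1 ∪ T2, ?_, ?_⟩
    · have := Finset.card_union_le T1 T2
      show (T1 ∪ T2).card ≤ len φ + len ψ + 1
      omega
    · intro D' h' xs' hxs hagree
      have i1 := h1 D' h' xs' hxs
        (fun f hf => hagree f (hf.trans Finset.subset_union_left))
      have i2 := h2 D' h' xs' hxs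
        (fun f hf => hagree f (hf.trans Finset.subset_union_right))
      show (Sat hL D h φ xs → Sat hL D h ψ xs) ↔ (Sat hL D' h' φ xs' → Sat hL D' h' ψ xs')
      rw [i1, i2]

include hcert in
theorem ex_preserved (D : Set (Fin N)) (h : ∀ a : ℕ, L.Relations a → (Fin a → Fin N) → Prop)
    {n : ℕ} (φ : L.BoundedFormula Empty n) (hφ : φ.IsExistential) :
    ∀ xs : Fin n → D, Sat hL D h φ xs →
    ∃ T : Finset E, T.card ≤ len φ ∧
      ∀ (D' : Set (Fin N)) (h' : ∀ a : ℕ, L.Relations a → (Fin a → Fin N) → Prop)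
        (xs' : Fin n → D'), (∀ i, (xs' i : Fin N) = xs i) →
        (∀ f, cert f ⊆ T → Agree D D' h h' f) → Sat hL D' h' φ xs' := by
  classical
  induction hφ with
  | of_isQF hqf =>
    intro xs hsat
    obtain ⟨T, hT, hT'⟩ := qf_preserved hL cert hcert D h _ hqf xs
    exact ⟨T, hT, fun D' h' xs' hxs hagree => (hT' D' h' xs' hxs hagree).1 hsat⟩
  | @ex n φ _ ih =>
    intro xs hsat
    have hsat' : ∃ x : D, Sat hL D h φ (Fin.snoc xs x) :=
      (@FirstOrder.Language.BoundedFormula.realize_ex L D (mkStr hL D h) Empty n φ default xs).1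
        hsat
    obtain ⟨x, hx⟩ := hsat'
    obtain ⟨T, hT, hT'⟩ := ih (Fin.snoc xs x) hx
    refine ⟨cert (Sum.inr (x : Fin N)) ∪ T, ?_, ?_⟩
    · have h1 := Finset.card_union_le (cert (Sum.inr (x : Fin N))) T
      have h2 : len φ.ex = len φ + 1 + 1 + 1 + 1 + 1 := rfl
      have h3 : (cert (Sum.inr (x : Fin N))).card ≤ 1 := hcert _
      omega
    · intro D' h' xs' hxs hagree
      have hxD' : (x : Fin N) ∈ D' :=
        (hagree (Sum.inr (x : Fin N)) Finset.subset_union_left).1 x.2
      refine (@FirstOrder.Language.BoundedFormula.realize_ex L D' (mkStr hL D' h') Empty n φ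
        default xs').2 ⟨⟨x, hxD'⟩, ?_⟩
      refine hT' D' h' (Fin.snoc xs' ⟨x, hxD'⟩) ?_
        (fun f hf => hagree f (hf.trans Finset.subset_union_right))
      intro i
      refine Fin.lastCases ?_ (fun j => ?_) i
      · simp
      · simp [hxs]

end Preservation

section Elementary

variable {n k d M ℓ : ℕ} (ρ : BoundedDepthReduction n k d M ℓ)

/-- The symbols of the vocabulary. -/
abbrev Sy (ρ : BoundedDepthReduction n k d M ℓ) : Type := Σ a : ℕ, ρ.L.Relations a

/-- Elementary facts about the output. -/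
abbrev Elem (ρ : BoundedDepthReduction n k d M ℓ) : Type :=
  Fin ρ.N ⊕ ((Fin M × Option (Sy ρ)) ⊕ ((Fin M × (Fin M × Fin ρ.N)) ⊕
    (Sy ρ ⊕ (Sy ρ × (Fin M × (Fin M × Fin ρ.N))))))

/-- The record `j` has symbol `σ`, agrees with the record `j₀` up to position `i` and has entry `x`
at the position `i`. -/
def Ext (G : SimpleGraph (Fin n)) (σ : Sy ρ) (j₀ : Fin M) (i : ℕ) (x : Fin ρ.N)
    (j : Fin M) : Prop :=
  ρ.symb G j = some σ ∧ (∀ p : Fin i, ρ.entry G j p = ρ.entry G j₀ p) ∧ ρ.entry G j i = x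

/-- The truth of an elementary fact. -/
def Holds (G : SimpleGraph (Fin n)) : Elem ρ → Prop
  | Sum.inl x => x ∈ ρ.univ G
  | Sum.inr (Sum.inl (j, σ)) => ρ.symb G j = σ
  | Sum.inr (Sum.inr (Sum.inl (j, (i, x)))) => ρ.entry G j i = x
  | Sum.inr (Sum.inr (Sum.inr (Sum.inl σ))) => ∃ j, ρ.symb G j = some σ
  | Sum.inr (Sum.inr (Sum.inr (Sum.inr (σ, (j₀, (i, x)))))) => ∃ j, Ext ρ G σ j₀ i x j

include ρ in
theorem M_pos : 0 < M := by
  have h1 : 1 ≤ ℓ := by
    refine le_trans ?_ (ρ.len_le ⊥)
    generalize ρ.sent ⊥ = φ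
    change 1 ≤ len (φ : ρ.L.BoundedFormula Empty 0)
    cases φ <;> simp [len]
  exact Fin.pos (ρ.word ⊥ ⟨0, h1⟩)

theorem holds_ac0 (e : Elem ρ) : IsAC0 (M + 2) (d + 4) (fun G => Holds ρ G e) := by
  have h0 : 0 < M := M_pos ρ
  have h0' : 0 < M + 2 := by omega
  have hle : M ≤ M + 2 := by omega
  have : Nonempty (Fin M) := ⟨⟨0, h0⟩⟩
  match e with
  | Sum.inl x => exact ((ρ.univ_ac0 x).mono h0 hle).add h0' 4
  | Sum.inr (Sum.inl (j, σ)) => exact ((ρ.symb_ac0 j σ).mono h0 hle).add h0' 4
  | Sum.inr (Sum.inr (Sum.inl (j, (i, x)))) => exact ((ρ.entry_ac0 j i x).mono h0 hle).add h0' 4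
  | Sum.inr (Sum.inr (Sum.inr (Sum.inl σ))) =>
    have h1 : IsAC0 (M + 2) (d + 3) (fun G => ∃ j, ρ.symb G j = some σ) := by
      refine IsAC0.exists (by simp) fun j => ?_
      exact ((ρ.symb_ac0 j _).mono h0 hle).add h0' 2
    exact h1.add h0' 1
  | Sum.inr (Sum.inr (Sum.inr (Sum.inr (σ, (j₀, (i, x)))))) =>
    refine IsAC0.exists (by simp) fun j => ?_
    -- the conjunction
    have h1 : IsAC0 (M + 2) (d + 2 + 1) (fun G => ∀ r : Option (Option (Fin (i : ℕ))),
        (match r with
        | none => ρ.symb G j = some σ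
        | some none => ρ.entry G j i = x
        | some (some p) => ∃ y : Fin ρ.N, ρ.entry G j p = y ∧ ρ.entry G j₀ p = y)) := by
      refine IsAC0.forall ?_ fun r => ?_
      · simp only [Fintype.card_option, Fintype.card_fin]
        omega
      · match r with
        | none => exact ((ρ.symb_ac0 j _).mono h0 hle).add h0' 2
        | some none => exact ((ρ.entry_ac0 j i x).mono h0 hle).add h0' 2
        | some (some p) =>
          have : Nonempty (Fin ρ.N) := ⟨ρ.entry ⊥ j p⟩
          refine IsAC0.exists ?_ fun y => ?_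
          · have := ρ.univ_size
            simp only [Fintype.card_fin]
            omega
          · exact ((ρ.entry_ac0 j p y).mono h0 hle).and (by omega)
              ((ρ.entry_ac0 j₀ p y).mono h0 hle)
    convert h1 using 2 with G
    constructor
    · rintro ⟨h2, h3, h4⟩ r
      match r with
      | none => exact h2
      | some none => exact h4
      | some (some p) => exact ⟨_, h3 p, rfl⟩
    · intro h
      refine ⟨h none, ?_, h (some none)⟩
      intro p
      obtain ⟨y, h5, h6⟩ := h (some (some p))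
      rw [h5, h6]

/-- Every atomic fact about the output is determined by few elementary facts. -/
theorem exists_cert (G : SimpleGraph (Fin n)) (f : Fact ρ.L ρ.N) :
    ∃ T : Finset (Elem ρ), T.card ≤ cost f ∧ ∀ G' : SimpleGraph (Fin n),
      (∀ e ∈ T, (Holds ρ G e ↔ Holds ρ G' e)) →
      Agree (ρ.univ G) (ρ.univ G') (listed (ρ.symb G) (ρ.entry G))
        (listed (ρ.symb G') (ρ.entry G')) f := by
  classical
  match f with
  | Sum.inr x =>
    exact ⟨{Sum.inl x}, by simp [cost], fun G' h => h _ (Finset.mem_singleton_self _)⟩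
  | Sum.inl ⟨a, R, t⟩ =>
    have haM : a ≤ M := ρ.arity_le a R
    by_cases hpos : listed (ρ.symb G) (ρ.entry G) a R t
    · -- a tuple which is in the relation
      obtain ⟨j, hj1, hj2⟩ := hpos
      refine ⟨insert (Sum.inr (Sum.inl (j, some ⟨a, R⟩)))
        ((Finset.univ : Finset (Fin a)).image
          (fun p : Fin a => Sum.inr (Sum.inr (Sum.inl (j, (⟨p, by omega⟩, t p)))))), ?_, ?_⟩
      · refine (Finset.card_insert_le _ _).trans ?_
        have h1 : ((Finset.univ : Finset (Fin a)).image (fun p : Fin a =>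
          (Sum.inr (Sum.inr (Sum.inl (j, (⟨p, by omega⟩, t p)))) : Elem ρ))).card ≤ a := by
          refine Finset.card_image_le.trans ?_
          rw [Finset.card_univ, Fintype.card_fin]
        exact Nat.add_le_add_right h1 1
      · intro G' hG'
        refine ⟨fun _ => ⟨j, ?_, ?_⟩, fun _ => ⟨j, hj1, hj2⟩⟩
        · exact (hG' _ (Finset.mem_insert_self _ _)).1 hj1
        · intro p
          exact (hG' _ (Finset.mem_insert_of_mem (Finset.mem_image.2
            ⟨p, Finset.mem_univ p, rfl⟩))).1 (hj2 p)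
    · by_cases hnone : ∃ j, ρ.symb G j = some ⟨a, R⟩
      · -- the longest prefix which occurs
        have hex : ∃ i : ℕ, i < a ∧ (∃ j, ρ.symb G j = some ⟨a, R⟩ ∧
            ∀ p : Fin a, (p : ℕ) < i → ρ.entry G j p = t p) ∧
            ¬ (∃ j, ρ.symb G j = some ⟨a, R⟩ ∧
            ∀ p : Fin a, (p : ℕ) < i + 1 → ρ.entry G j p = t p) := by
          by_contra hcon
          push Not at hcon
          have hall : ∀ i : ℕ, i ≤ a → ∃ j, ρ.symb G j = some ⟨a, R⟩ ∧
              ∀ p : Fin a, (p : ℕ) < i → ρ.entry G j p = t p := by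
            intro i
            induction i with
            | zero =>
              intro _
              obtain ⟨j, hj⟩ := hnone
              exact ⟨j, hj, fun p hp => absurd hp (Nat.not_lt_zero _)⟩
            | succ i ih =>
              intro hi
              obtain ⟨j, hj, hj'⟩ := ih (by omega)
              exact hcon i (by omega) ⟨j, hj, hj'⟩
          obtain ⟨j, hj, hj'⟩ := hall a le_rfl
          exact hpos ⟨j, hj, fun p => hj' p p.2⟩
        obtain ⟨i, hia, ⟨j₀, hj₀, hj₀'⟩, hmax⟩ := hex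
        refine ⟨insert (Sum.inr (Sum.inr (Sum.inr (Sum.inr
            (⟨a, R⟩, (j₀, (⟨i, by omega⟩, t ⟨i, hia⟩)))))))
          ((Finset.univ : Finset (Fin i)).image
            (fun p : Fin i => Sum.inr (Sum.inr (Sum.inl
              (j₀, (⟨p, by omega⟩, t ⟨p, by omega⟩)))))), ?_, ?_⟩
        · refine (Finset.card_insert_le _ _).trans ?_
          have h1 : ((Finset.univ : Finset (Fin i)).image (fun p : Fin i =>
            (Sum.inr (Sum.inr (Sum.inl (j₀, (⟨p, by omega⟩, t ⟨p, by omega⟩)))) :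
              Elem ρ))).card ≤ i := by
            refine Finset.card_image_le.trans ?_
            rw [Finset.card_univ, Fintype.card_fin]
          show _ ≤ a + 1
          omega
        · intro G' hG'
          refine ⟨fun h => absurd h hpos, fun h => ?_⟩
          exfalso
          obtain ⟨j, hj, hj'⟩ := h
          have hent : ∀ p : Fin i, ρ.entry G' j₀ p = t ⟨p, by omega⟩ := by
            intro p
            exact (hG' _ (Finset.mem_insert_of_mem (Finset.mem_image.2
              ⟨p, Finset.mem_univ p, rfl⟩))).1 (hj₀' ⟨p, by omega⟩ p.2)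
          have h1 : ∃ j, Ext ρ G' ⟨a, R⟩ j₀ i (t ⟨i, hia⟩) j := by
            refine ⟨j, hj, ?_, hj' ⟨i, hia⟩⟩
            intro p
            rw [hent p]
            exact hj' ⟨p, by omega⟩
          have h2 : ∃ j, Ext ρ G ⟨a, R⟩ j₀ i (t ⟨i, hia⟩) j :=
            (hG' _ (Finset.mem_insert_self _ _)).2 h1
          obtain ⟨j', h3, h4, h5⟩ := h2
          apply hmax
          refine ⟨j', h3, ?_⟩
          intro p hp
          rcases Nat.lt_succ_iff_lt_or_eq.1 hp with hp | hp
          · rw [h4 ⟨p, hp⟩]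
            exact hj₀' p hp
          · have : p = ⟨i, hia⟩ := Fin.ext hp
            rw [this]
            exact h5
      · -- the relation is empty
        refine ⟨{Sum.inr (Sum.inr (Sum.inr (Sum.inl ⟨a, R⟩)))}, ?_, ?_⟩
        · rw [Finset.card_singleton]
          show 1 ≤ a + 1
          omega
        · intro G' hG'
          have h1 := hG' _ (Finset.mem_singleton_self _)
          refine ⟨fun h => absurd h hpos, fun h => ?_⟩
          obtain ⟨j, hj, -⟩ := h
          exact absurd (h1.2 ⟨j, hj⟩) hnone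

end Elementary

/-- The quantitative form. -/
theorem main (d c : ℕ) : ∃ s K₀ : ℕ, ∀ n k : ℕ, K₀ ≤ k → k ≤ c * Nat.log 2 n →
    ∀ M ℓ : ℕ, M ≤ n ^ c → Nonempty (BoundedDepthReduction n k d M ℓ) →
    k ^ 2 ≤ s * ℓ := by
  obtain ⟨s, K1, hs⟩ := planted (d + 4) (10 * c + 3)
  refine ⟨8 * (s ^ 2 + 1), K1 + 2, ?_⟩
  intro n k hk hkL M ℓ hM ⟨ρ⟩
  classical
  by_contra hcon
  push Not at hcon
  set L := Nat.log 2 n with hLdef
  have hMpos : 0 < M := M_pos ρ
  have hLpos : 1 ≤ L := by
    rcases Nat.eq_zero_or_pos L with h | h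
    · rw [h] at hkL; omega
    · exact h
  have hℓ : ℓ ≤ 2 ^ (2 * c * L) := by
    have h1 : ℓ ≤ k ^ 2 := by nlinarith
    have h2 : k ≤ 2 ^ (c * L) := hkL.trans Nat.lt_two_pow_self.le
    calc ℓ ≤ k ^ 2 := h1
      _ ≤ (2 ^ (c * L)) ^ 2 := Nat.pow_le_pow_left h2 2
      _ = 2 ^ (2 * c * L) := by rw [← pow_mul]; congr 1; ring
  have hn : n ≤ 2 ^ (2 * L) := by
    have h1 : n < 2 ^ (L + 1) := Nat.lt_pow_succ_log_self (by norm_num) n
    exact h1.le.trans (Nat.pow_le_pow_right (by norm_num) (by omega))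
  have hM2 : M ≤ 2 ^ (2 * c * L) := by
    calc M ≤ n ^ c := hM
      _ ≤ (2 ^ (2 * L)) ^ c := Nat.pow_le_pow_left hn c
      _ = 2 ^ (2 * c * L) := by rw [← pow_mul]; congr 1; ring
  have := ρ.symbols_finite
  have : Fintype (Sy ρ) := Fintype.ofFinite _
  have hS : Fintype.card (Sy ρ) ≤ M := by
    rw [← Nat.card_eq_fintype_card]; exact ρ.symbols_size
  -- the family of all facts
  let κ := Elem ρ ⊕ (Fin ℓ × Fin M)
  let f : κ → SimpleGraph (Fin n) → Prop := fun j =>
    match j with
    | Sum.inl e => fun G => Holds ρ G e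
    | Sum.inr (i, b) => fun G => ρ.word G i = b
  have hf : ∀ j, IsAC0 (M + 2) (d + 4) (f j) := by
    intro j
    match j with
    | Sum.inl e => exact holds_ac0 ρ e
    | Sum.inr (i, b) => exact ((ρ.word_ac0 i b).mono hMpos (by omega)).add (by omega) 4
  have h8 : (8:ℕ) ≤ 2 ^ (3 * L) := by
    calc 8 = 2 ^ 3 := by norm_num
      _ ≤ 2 ^ (3 * L) := Nat.pow_le_pow_right (by norm_num) (by omega)
  have hM4 : M ^ 4 ≤ 2 ^ (8 * c * L) := by
    calc M ^ 4 ≤ (2 ^ (2 * c * L)) ^ 4 := Nat.pow_le_pow_left hM2 4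
      _ = 2 ^ (8 * c * L) := by rw [← pow_mul]; congr 1; ring
  have hκ : Fintype.card κ ≤ 2 ^ ((10 * c + 3) * L) := by
    have h2 : Fintype.card κ = ρ.N + (M * (Fintype.card (Sy ρ) + 1) + (M * (M * ρ.N) +
        (Fintype.card (Sy ρ) + Fintype.card (Sy ρ) * (M * (M * ρ.N))))) + ℓ * M := by
      simp only [κ, Elem, Fintype.card_sum, Fintype.card_prod, Fintype.card_fin,
        Fintype.card_option]
    have hN := ρ.univ_size
    rw [h2]
    set S := Fintype.card (Sy ρ)
    have e1 : M ≤ M ^ 4 := Nat.le_self_pow (by norm_num) M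
    have e2 : M * M ≤ M ^ 4 := by
      calc M * M = M ^ 2 := by ring
        _ ≤ M ^ 4 := Nat.pow_le_pow_right hMpos (by norm_num)
    have e3 : M * (M * ρ.N) ≤ M ^ 4 := by
      calc M * (M * ρ.N) ≤ M * (M * M) := by gcongr
        _ = M ^ 3 := by ring
        _ ≤ M ^ 4 := Nat.pow_le_pow_right hMpos (by norm_num)
    have e4 : S * (M * (M * ρ.N)) ≤ M ^ 4 := by
      calc S * (M * (M * ρ.N)) ≤ M * (M * (M * M)) := by gcongr
        _ = M ^ 4 := by ring
    have e5 : ℓ * M ≤ ℓ * M ^ 4 := Nat.mul_le_mul_left ℓ e1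
    have e6 : M * (S + 1) ≤ M ^ 4 + M ^ 4 := by
      calc M * (S + 1) ≤ M * (M + 1) := by gcongr
        _ = M * M + M := by ring
        _ ≤ M ^ 4 + M ^ 4 := by omega
    calc ρ.N + (M * (S + 1) + (M * (M * ρ.N) + (S + S * (M * (M * ρ.N))))) + ℓ * M
        ≤ (6 + ℓ) * M ^ 4 := by
          have : (6 + ℓ) * M ^ 4 = M ^ 4 + ((M ^ 4 + M ^ 4) + (M ^ 4 + (M ^ 4 + M ^ 4))) +
            ℓ * M ^ 4 := by ring
          omega
      _ ≤ (2 ^ (3 * L) * 2 ^ (2 * c * L)) * 2 ^ (8 * c * L) := by
          refine Nat.mul_le_mul ?_ hM4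
          have h3 : 1 ≤ 2 ^ (2 * c * L) := Nat.one_le_two_pow
          calc 6 + ℓ ≤ 8 * 2 ^ (2 * c * L) := by omega
            _ ≤ 2 ^ (3 * L) * 2 ^ (2 * c * L) := Nat.mul_le_mul_right _ h8
      _ = 2 ^ ((10 * c + 3) * L) := by rw [← pow_add, ← pow_add]; congr 1; ring
  have hM' : M + 2 ≤ 2 ^ ((10 * c + 3) * L) := by
    have h3 : 1 ≤ 2 ^ (2 * c * L) := Nat.one_le_two_pow
    calc M + 2 ≤ 8 * 2 ^ (2 * c * L) := by omega
      _ ≤ 2 ^ (3 * L) * 2 ^ (2 * c * L) := Nat.mul_le_mul_right _ h8
      _ = 2 ^ (3 * L + 2 * c * L) := by rw [pow_add]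
      _ ≤ 2 ^ ((10 * c + 3) * L) := Nat.pow_le_pow_right (by norm_num) (by nlinarith)
  have hkL' : k ≤ (10 * c + 3) * L := hkL.trans (Nat.mul_le_mul_right L (by omega))
  obtain ⟨G, A, Q, hGA, hQ, hQ'⟩ := hs n k (by omega) hkL' (M + 2) hM' κ hκ f hf
  -- the sentence is true for G
  have hG : ¬ G.CliqueFree k := fun h => h A hGA
  have hsat : Sat ρ.relational (ρ.univ G) (listed (ρ.symb G) (ρ.entry G)) (ρ.sent G) default :=
    (ρ.correct G).1 hG
  choose cert hcert1 hcert2 using exists_cert ρ G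
  obtain ⟨T, hT, hT'⟩ := ex_preserved ρ.relational cert hcert1 (ρ.univ G)
    (listed (ρ.symb G) (ρ.entry G)) (ρ.sent G) (ρ.existential G) default hsat
  -- all facts which are used
  set T' : Finset κ := T.image Sum.inl ∪
    (Finset.univ : Finset (Fin ℓ)).image (fun i => Sum.inr (i, ρ.word G i)) with hT'def
  have hT'card : T'.card ≤ 2 * ℓ := by
    have h1 := Finset.card_union_le (T.image Sum.inl)
      ((Finset.univ : Finset (Fin ℓ)).image (fun i => (Sum.inr (i, ρ.word G i) : κ)))
    have h2 : (T.image (Sum.inl : Elem ρ → κ)).card ≤ T.card := Finset.card_image_le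
    have h3 : ((Finset.univ : Finset (Fin ℓ)).image
        (fun i => (Sum.inr (i, ρ.word G i) : κ))).card ≤ ℓ := by
      refine Finset.card_image_le.trans ?_
      rw [Finset.card_univ, Fintype.card_fin]
    have h4 := ρ.len_le G
    have h5 : T'.card ≤ (T.image (Sum.inl : Elem ρ → κ)).card +
      ((Finset.univ : Finset (Fin ℓ)).image (fun i => (Sum.inr (i, ρ.word G i) : κ))).card := h1
    omega
  -- pairs seen by these facts
  set P := T'.biUnion (fun j => prs (Q j)) with hP
  have hPcard : P.card ≤ 2 * ℓ * s ^ 2 := by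
    calc P.card ≤ T'.card * s ^ 2 := by
          refine Finset.card_biUnion_le_card_mul _ _ _ fun j _ => ?_
          refine (Finset.card_le_card (Finset.filter_subset _ _)).trans ?_
          exact card_sym2_le _ (hQ j)
      _ ≤ 2 * ℓ * s ^ 2 := Nat.mul_le_mul_right _ hT'card
  have hAcard : k ^ 2 ≤ 4 * (prs A).card := by
    rw [card_prs, hGA.card_eq]
    have h1 : ((k ^ 2 : ℕ) : ℚ) ≤ ((4 * k.choose 2 : ℕ) : ℚ) := by
      push_cast
      rw [Nat.cast_choose_two]
      have h2 : (2:ℚ) ≤ k := by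
        have : 2 ≤ k := by omega
        exact_mod_cast this
      nlinarith
    exact_mod_cast h1
  have hlt : P.card < (prs A).card := by
    refine lt_of_le_of_lt hPcard ?_
    have h1 : 8 * (s ^ 2 + 1) * ℓ < k ^ 2 := hcon
    nlinarith
  obtain ⟨e, heA, heP⟩ := Finset.exists_mem_notMem_of_card_lt_card hlt
  induction e using Sym2.ind with
  | _ u v =>
    obtain ⟨huA, hvA, huv⟩ := mem_prs.1 heA
    obtain ⟨hfree, hkeep⟩ := hQ' u huA v hvA huv
    set G' := G.deleteEdges {s(u, v)} with hG'
    have hfact : ∀ j ∈ T', (f j G ↔ f j G') := by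
      intro j hj
      apply hkeep
      intro hmem
      apply heP
      rw [hP, Finset.mem_biUnion]
      refine ⟨j, hj, ?_⟩
      rw [Finset.mk_mem_sym2_iff] at hmem
      exact mem_prs.2 ⟨hmem.1, hmem.2, huv⟩
    have hword : ρ.word G = ρ.word G' := by
      funext i
      have h1 : (Sum.inr (i, ρ.word G i) : κ) ∈ T' := by
        rw [hT'def]
        exact Finset.mem_union_right _ (Finset.mem_image.2 ⟨i, Finset.mem_univ i, rfl⟩)
      have h2 := hfact _ h1
      exact ((show (ρ.word G i = ρ.word G i ↔ ρ.word G' i = ρ.word G i) from h2).1 rfl).symm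
    have hsent : ρ.sent G = ρ.sent G' := ρ.sent_of_word _ _ hword
    have hsat' : Sat ρ.relational (ρ.univ G') (listed (ρ.symb G') (ρ.entry G')) (ρ.sent G)
        default := by
      refine hT' (ρ.univ G') (listed (ρ.symb G') (ρ.entry G')) default (fun i => i.elim0) ?_
      intro g hg
      refine hcert2 g G' fun e he => ?_
      have h1 : (Sum.inl e : κ) ∈ T' := by
        rw [hT'def]
        exact Finset.mem_union_left _ (Finset.mem_image.2 ⟨e, hg he, rfl⟩)
      exact hfact _ h1
    rw [hsent] at hsat'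
    exact (ρ.correct G').2 hsat' hfree

/-- There is no ept-reduction from `p-CLIQUE` to `p-MC(Σ₁)` computed by circuits of constant depth
and size `2^{O(k)} * n^{O(1)}`: its sentences would have length `O(k + log n)`. -/
theorem no_ept_reduction : ¬ ∃ d c : ℕ, ∀ n k : ℕ, Nonempty
    (BoundedDepthReduction n k d (2 ^ (c * (k + Nat.log 2 n + 1)))
      (c * (k + Nat.log 2 n + 1))) := by
  rintro ⟨d, c, h⟩
  obtain ⟨s, K₀, hmain⟩ := main d (3 * c + 1)
  -- k = log n
  set k := K₀ + 3 * s * c + 1 with hk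
  have hlog : Nat.log 2 (2 ^ k) = k := Nat.log_pow (by norm_num) k
  have h1 := hmain (2 ^ k) k (by omega) (by rw [hlog]; nlinarith)
    (2 ^ (c * (k + Nat.log 2 (2 ^ k) + 1))) (c * (k + Nat.log 2 (2 ^ k) + 1)) ?_ (h _ _)
  · rw [hlog] at h1
    have h2 : s * (c * (k + k + 1)) ≤ 3 * s * c * k := by
      have : k + k + 1 ≤ 3 * k := by omega
      calc s * (c * (k + k + 1)) ≤ s * (c * (3 * k)) := by gcongr
        _ = 3 * s * c * k := by ring
    have h3 : k * k ≤ 3 * s * c * k := by
      calc k * k = k ^ 2 := by ring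
        _ ≤ _ := h1
        _ ≤ _ := h2
    have h4 : k ≤ 3 * s * c := Nat.le_of_mul_le_mul_right h3 (by omega)
    omega
  · rw [hlog, ← pow_mul]
    refine Nat.pow_le_pow_right (by norm_num) ?_
    have h5 : k + k + 1 ≤ 3 * k := by omega
    calc c * (k + k + 1) ≤ c * (3 * k) := Nat.mul_le_mul_left c h5
      _ ≤ c * (3 * k) + k := Nat.le_add_right _ _
      _ = k * (3 * c + 1) := by ring

/-- **Theorem.** Fix `d` and `c`. There are `ε > 0` and `K₀` such that for all `n` and `k` with
`K₀ ≤ k ≤ c * log n`, every reduction from the `k`-clique problem on graphs with `n` vertices to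
model checking of `Σ₁`-sentences, computed by circuits of depth `d` and fan-in at most `n^c`, needs
sentences (and encodings of the sentences) of length at least `ε * k^2`. -/
theorem result (d c : ℕ) : ∃ ε : ℝ, 0 < ε ∧ ∃ K₀ : ℕ, ∀ n k : ℕ,
    K₀ ≤ k → k ≤ c * Nat.log 2 n → ∀ M ℓ : ℕ, M ≤ n ^ c →
    Nonempty (BoundedDepthReduction n k d M ℓ) → ε * (k : ℝ) ^ 2 ≤ ℓ := by
  obtain ⟨s, K₀, h⟩ := main d c
  refine ⟨1 / ((s : ℝ) + 1), by positivity, K₀, ?_⟩
  intro n k hk hkL M ℓ hM hρ
  have h1 := h n k hk hkL M ℓ hM hρ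
  have h2 : (k : ℝ) ^ 2 ≤ s * ℓ := by exact_mod_cast h1
  have h3 : (0:ℝ) ≤ ℓ := Nat.cast_nonneg ℓ
  have h4 : (0:ℝ) ≤ s := Nat.cast_nonneg s
  rw [one_div, inv_mul_le_iff₀ (by positivity)]
  nlinarith

end Pool.Agent.Results.MP_2b48c2_lc.BoundedDepth
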