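import Pool.Agent.helper88.GH.Final

namespace Pool.Agent.helper88.Reserve.DiamGirth

open Pool.Agent.helper88.GH

/-- Let `T` be a tree with `m` edges and `G` a finite simple graph which is bipartite and
`m`-regular, or `2m`-regular. If the girth of `G` is at least the diameter of `T`, then `T`
decomposes `G`. In the bipartite case this includes every tree of diameter at most four. -/
theorem result {V W : Type*} [Fintype V] [Fintype W] (T : SimpleGraph W) (G : SimpleGraph V)
    (m : ℕ) (hT : T.IsTree) (hm : T.edgeSet.ncard = m)
    (h : (G.IsBipartite ∧ (∀ v, (G.neighborSet v).ncard = m) ∧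
          (T.ediam ≤ 4 ∨ T.ediam ≤ G.egirth)) ∨
        ((∀ v, (G.neighborSet v).ncard = 2 * m) ∧ T.ediam ≤ G.egirth)) :
    Decomposes T G := by
  rcases h with ⟨hb, hreg, h4 | hg⟩ | ⟨hreg, hg⟩
  · exact bipartite_case T G m hT hm hb hreg (h4.trans (four_le_egirth_of_bipartite hb))
  · exact bipartite_case T G m hT hm hb hreg hg
  · exact regular_case T G m hT hm hreg hg

end Pool.Agent.helper88.Reserve.DiamGirth
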