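import Pool.Agent.helper88.MB.B

/-!
# Tate characters of Fermat fourfolds of every degree

`π : Fin (2 d) → Fin s` describes a product of `s` Fermat varieties of degree `m` with `2 d ≤ 6`
coordinates, for example the Fermat fourfold `X_m^4` (`d = 3`, `s = 1`). For every `m` the Tate
characters are trivial up to standard elements (pairs and Davenport–Hasse elements), Lefschetz
classes (`IsLef`) and congruence classes (`IsCongLef`).

## Why this gives the conjectures of Tate and Hodge (not formalised)

Let `M_c` be the Fermat motive (of rank one) of a multiset `c` of nonzero elements of `ℚ/ℤ` with sum
zero. By the inductive structure of Fermat varieties (Shioda and Katsura) `M_{b + c}` is the product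
of `M_b` and `M_c` up to a Tate twist, and the motives of standard elements are Tate motives
(Lefschetz, Shioda, Aoki), by algebraic correspondences. So the conjectures hold for a Tate
character `a` if `M_u` is a Tate motive for the generators `u` needed for `a`.

* Lefschetz classes: they are algebraic, because the threefold quotients of products of Fermat
  varieties attached to their pieces are uniruled, so that their third cohomology is that of curves
  (Miyaoka–Mori, Bloch–Srinivas), and by Lefschetz's theorem on `(1, 1)`-classes. The proof is
  written down in `Pool/Agent/Results/MP_3703a7_ag/AllDimensions.lean`.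
* Congruence classes: `M_c` is the determinant of the `ϱ`-part of `H¹(X(N))`, by algebraic
  correspondences, and a product of `H¹`'s of elliptic curves with complex multiplication because
  of the Hecke correspondences. The proof (DET, MOD) is written down in
  `Pool/Agent/Results/MP_3703a7_ag/ThreeModFour.lean`.

So the theorem implies: *the conjectures of Tate and of Hodge hold for all Fermat fourfolds, and
for all products of Fermat varieties of the same degree with at most six coordinates, for every
degree `m`*. In the proof congruence classes are needed only if `110 ∣ m`: the class
`(1, 24, 62, 71, 81, 91)/110` and the class of the multiset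
`{1/4 ± 1/5 + a/11 : a = 0, 1, 3, 4, 5, 9}`, which are equivalent up to standard elements and
Lefschetz classes; the latter is the difference of the exponents of the representations
`κ ⊗ V_5 ⊗ V_11` and `κ ⊗ V_11` of `SL₂(ℤ/220)`, where `κ` is a character with `κ(T) = i` and `V_p`
is half of the principal series of `SL₂(𝔽_p)` attached to the quadratic character, with exponents
`0` and `b/p`, `b` a nonzero square.
-/

namespace Pool.Agent.Results.MP_3703a7_ag.Fourfolds

open Pool.Agent.helper76.FV Pool.Agent.helper34.DH Pool.Agent.helper76.LP Pool.Agent.helper76.UR
  Pool.Agent.helper88.MB

/-- `IsTateChar m π a`: all entries of `a` are nonzero, the sums over the factors vanish and the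
square of the normalised product of Gauss sums is a root of unity for all primes `p ≡ 1 mod m`.
`EquivMod IsLefCong (pts a) 0`: the multiset of the `a_i / m` becomes trivial after adding standard
elements, Lefschetz classes and congruence classes. -/
theorem result (m : ℕ) (hm : 0 < m) (d : ℕ) (hd : d ≤ 3) {s : ℕ} (π : Fin (2 * d) → Fin s)
    (a : Fin (2 * d) → ZMod m) :
    IsTateChar m π a ↔ (∀ i, a i ≠ 0) ∧ BlockZero π a ∧ EquivMod IsLefCong (pts a) 0 :=
  fourfold_plc m hm d hd π a

end Pool.Agent.Results.MP_3703a7_ag.Fourfolds
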