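import Pool.Agent.helper28.HC.All
import Pool.Agent.helper45.HC.TT20
import Pool.Agent.helper73.HC.TT13

/-!
# The Hodge conjecture for complex tori (abelian varieties) with complex multiplication

Let `A = W ⧸ Lam` be a complex torus of CM type: up to isogeny a product of tori `ℂ^Φ ⧸ Φ(O_K)`, for CM
fields `K` and CM types `Φ`. Every complex abelian variety with complex multiplication is of this form.

THEOREM. The rational Hodge classes in `H_{2a}(A, ℚ)`, for every `a`, are exactly the `ℚ`-linear
combinations of classes of holomorphic maps `M → A` from compact complex manifolds `M` of dimension
`a`; all these manifolds are quotients of the unit ball of `ℂ^a` by discrete groups which act freely.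

By Remmert's theorem and Chow's theorem the image of such a map `f` is an algebraic subvariety of `A`,
and the class of `f` is the degree of `f` times the class of its image (zero if the image has smaller
dimension). By Poincare duality the Hodge classes in `H_{2a}(A, ℚ)` are the Hodge classes in
`H^{2(g-a)}(A, ℚ)`, `g = dim A`. So the theorem says that every Hodge class on every abelian variety
with complex multiplication is algebraic.

## The definitions

All definitions are in `Pool/Agent/helper54/HC/TDefs.lean` (130 lines, only Mathlib is imported).
`H^k(A, ℝ)` is the space of real alternating `k`-forms on `W` (constant differential forms), it is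
rational iff it has rational values on the lattice. A homology class is a linear functional on these
forms; it is rational iff it has rational values on the rational forms, and of Hodge type iff it is
invariant under the circle `w ↦ exp(it) w`. The class of a map `f` is the functional
`η ↦ ∫_M f^* η`. A compact ball quotient is given by a group of matrices which preserve the form
`|z_1|² + ... + |z_a|² - |z_{a+1}|²` and act freely and properly discontinuously on the ball, with a
measurable fundamental set contained in a compact subset of the ball.

## The proof

*Reduction.* Let `E` be a CM field, Galois over `ℚ`, containing all `K_j` and `i`, and `Ψ_1, ..., Ψ_{2a}` CM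
types of `E` such that every embedding of `E` lies in exactly `a` of them. It is enough to find a compact
ball quotient `M` of dimension `a` and maps `f_k : M → ℂ^Ψ_k ⧸ Ψ_k(O_E)` such that the integral over `M` of the
wedge product of the `2a` forms of the weights given by one embedding `ι` of `E` does not vanish
(`MAIN_stmt`): then apply the group ring of `∏ E^×`, Galois conjugation and linear algebra. That the
conjugates of this number under `Gal(E/ℚ)` are again such numbers comes from the fact that the degree
of the class is a rational number: `∫_M` of a rational class is rational.

*Construction.* Let `F` be the real subfield of `E` and let `V` be a hermitian space of dimension `a + 1` over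
`E`, of signature `(a, 1)` at one real place of `F` and definite at the others. `M` is the quotient of the
ball of `V` by a small arithmetic subgroup of `SU(V)`; it is compact by reduction theory. For every CM
type `Ψ` of `E` there are holomorphic theta 1-forms on `M`: the sums over `V` of Schwartz
functions of the lines `⟨δ⟩`, `δ ∈ E` skew with signs prescribed by `Ψ`. The space of all 1-forms on the tower of
these quotients which satisfy the same local relations at the primes of `E` (Heisenberg groups and
Cayley transforms of unitary matrices acting on finite Schwartz functions) is defined over
`E`, and a valuation argument at one prime shows that all its conjugates are holomorphic or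
antiholomorphic according to `Ψ` (purity). So every theta form for `Ψ` is a combination of coordinates of maps
of `M` to the torus `ℂ^Ψ ⧸ Ψ(O_E)`. The Hodge theorem for `H^1(M)` is proved with the Berezin transform.

*Nonvanishing.* The wedge product of `a` theta forms for lines `δ_1, ..., δ_a` is a theta form for the skew
hermitian space `⟨δ_1⟩ + ... + ⟨δ_a⟩`. The two families given by the types containing `ι` and
by the others give two orthogonal frames of the same space over `E`, which can be taken close to each
other at the real places. The integral of the product of the first family with the complex conjugate
of the second one is close to the integral of a square, which is positive.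

There is no hypothesis and no algebraic geometry in the proof; all steps are proved in Lean.
-/

namespace Pool.Agent.helper88.Reserve.HodgeCM

open Pool.Agent.HC

/-- The rational Hodge classes of degree `2a` on a complex torus of CM type are exactly the `ℚ`-linear
combinations of classes of holomorphic maps of compact ball quotients of dimension `a`. -/
theorem result :
    ∀ (W : Type) [NormedAddCommGroup W] [NormedSpace ℂ W] [FiniteDimensional ℂ W]
      (Lam : AddSubgroup W), IsLattice Lam → Nonempty (CMData W Lam) →
    ∀ (a : ℕ) (ξ : (W [⋀^Fin (2 * a)]→ₗ[ℝ] ℝ) →ₗ[ℝ] ℝ), IsHodge Lam ξ ↔
    ∃ (n : ℕ) (q : Fin n → ℚ) (M : Fin n → BallQuotient a) (f : Fin n → (Fin a → ℂ) → W),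
      (∀ i, IsMap (M i) Lam (f i)) ∧ ∀ η : W [⋀^Fin (2 * a)]→ₗ[ℝ] ℝ,
        ξ η = ∑ i, (q i : ℝ) * cls (M i) (f i) η :=
  TT20 Pool.Agent.helper28.HCAll.T_HodgeCM
    (TB6 Pool.Agent.helper28.HCAll.T_DEG ACT TA5 TA6 TB2 (TB3 TB2)) TT13

end Pool.Agent.helper88.Reserve.HodgeCM
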