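import Pool.Agent.helper88.SJ.Y2All
import Pool.Agent.helper88.SJ.Conf
import Pool.Agent.helper34.SJ.AlgS

/-!
# The Hodge conjecture for the powers of Jacobians of cyclic covers of the line in general position

Let `C : y^d = ∏_j (t - a_j)^(μ_j)`, `n + 1` distinct branch points `a_j`, `d ≥ 3`, `0 < μ_j < d`, `d` not dividing `∑ μ_j` (so infinity
is a branch point), and let `A` be the new part of its Jacobian (the part where `ζ_d` acts with primitive eigenvalues;
for `d` prime the whole Jacobian). `H_1(A, ℚ)` has dimension `n` over `ℚ(ζ_d)`.

THEOREM. For almost every `x = (x_0, ..., x_M)` in `ℂ^(M+1)` (Lebesgue measure): let `C_i`, `i < m`, be ANY irreducible cyclic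
covers of the line of any degrees `d_i ≥ 3`, branched over infinity and any `n_i + 1 ≠ 3` of the points `x_j` (the branch
points may be shared by the curves or not; the number of branch points is not four). Then EVERY rational Hodge class, of every
degree, on EVERY complex torus isogenous to `∏ A_i^{e_i} × B`, all `e_i ≥ 0`, all `B` of CM type, is algebraic.

(Every cyclic cover of degree `d ≥ 3` is of this form after moving one branch point to infinity. Curves with the same branch
points and weights `μ' = h μ` have the same `A`; if no eigenspace of `ζ` in `H_1` is indefinite then `A` is of CM type.)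

The Hodge rings are not generated by divisors: they contain the determinants (Weil classes) of the eigenspaces,
combined with Hodge classes of `B`, for all Galois conjugates.

## The proof

The complex structure of `A_i`, in the flat basis, depends real analytically on `x`; for `x` outside a set of
measure zero every Hodge class on a torus as above at `x` is killed by the rational Lie algebra generated by the
complex structures at all `x'` (`YNG`, `WKE`). For one block (an eigenspace `ζ^r` of `H_1(A_i, ℂ)`), let `P_k`, `P'_k` be the periods of
`t^k dt / y^r`, `t^k dt / y^{-r}`, `Q` the intersection form. From `∂_j P_{k+1} = b_j ∂_j P_k + (α_j / b_j) P_{k+1}` (`YPR`), translations,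
scaling (`YPS`) and Riemann's relations `P_k Q P'_k'ᵀ = 0` one finds `∂_j P_k Q P'_k'ᵀ = κ b_j^{k+k'} / F'(b_j)`, `κ` independent of `j`,
`k`, `k'` (`YKP`). So the derivatives of the complex structure in the directions `b_j` have rank one (`YDJ`), and, by Lagrange
interpolation, together with the complex structure they generate all matrices `ν(c) ν'(c)ᵀ H⁻¹`, `c ∈ ℂ`, `ν`, `ν'` vectors of
powers; these generate `sl_n` unless `p = q` and the two diagonal blocks of the positive form `H` are proportional (`YSL`,
a computation with polynomials in two variables). When two neighbouring branch points come together, the limits of `H`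
and of the vanishing period show that `κ ≠ 0` and that the blocks are not proportional (`YGL`, `YVC`, `YKN`). If the complex
structures in two blocks are intertwined for all `x`, the same formulas give the equality of the branch points and
of the exponents (`YNI`, `YUN`, `YEQ`). Definite blocks are Galois conjugate to indefinite ones; automorphisms of `sl_n` (`YGO`)
and the lemmas of Goursat and Ribet (`YPI`, `YRI`, `YRB`) show that the Lie algebra contains `∏ su(H_1(A_i, ℝ))`, the product over
pairwise inequivalent curves with an indefinite eigenspace. Equivalent curves have isomorphic `A_i` (`YEI`), curves without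
indefinite eigenspaces have `A_i` of CM type (`YDF`), so the general case follows (`YJR`, `YGF`). A class killed by it is
algebraic by the theorem of the hand-in UnitaryCyclic (`Pool.Agent.SJ.T_SU2`: the cycles `Z_{a,b}` and `V` and the Hodge
conjecture for CM tori).

The statements of all lemmas are in `Pool/Agent/helper88/SJ/YSpec.lean`, `Pool/Agent/helper88/SJ/Y2Spec.lean`,
`Pool/Agent/helper76/SJ/S5Spec.lean` and `Pool/Agent/helper76/SJ/S4Lie.lean`, the definitions of the algebraic classes `AlgCl` in
`Pool/Agent/helper34/SJ/AlgS.lean` (see the hand-in UnitaryCyclic).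
-/

namespace Pool.Agent.Results.MP_3703a7_ag.HodgePowers

open MeasureTheory
open Pool.Agent.HC Pool.Agent.HC.SJ Pool.Agent.SJ

theorem cfg {m M : ℕ} {d n : Fin m → ℕ} {μ : ∀ i, Fin (n i + 1) → ℕ}
    {ι : ∀ i, Fin (n i + 1) → Fin (M + 1)} (h : Config d n μ ι) : Pool.Agent.S5.Cfg0 d n μ ι where
  par i := ⟨h.d3 i, by have := h.n1 i; omega, h.pos i, h.lt i, h.inf i⟩
  prim i e h1 h2 := h.irr i e h1 h2
  n2 := h.n2
  inj := h.inj

/-- For almost every configuration of points, all irreducible cyclic covers `C_i` of the line over it of any degrees `≥ 3`, with
any number of branch points except four (`Config`): every rational Hodge class on every torus isogenous to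
`∏ A_i^{e_i} × B`, `A_i` the new part of the Jacobian of `C_i`, `B` of CM type, is algebraic. -/
theorem result (M : ℕ) : ∀ᵐ x : Fin (M + 1) → ℂ, ∀ (m : ℕ) (d n : Fin m → ℕ)
    (μ : ∀ i, Fin (n i + 1) → ℕ) (ι : ∀ i, Fin (n i + 1) → Fin (M + 1)), Config d n μ ι →
    ∀ (W : Type) [NormedAddCommGroup W] [NormedSpace ℂ W] [FiniteDimensional ℂ W]
    (Lam : AddSubgroup W), IsLattice Lam → ∀ _ : JPow d n μ (fun i j => x (ι i j)) W Lam,
    ∀ (k : ℕ) (y : ExteriorAlgebra ℝ W), IsHodgeCl Lam k y → AlgCl W Lam y := by
  filter_upwards [Pool.Agent.S5.T_YGF M] with x hx m d n μ ι hC W _ _ _ Lam hLam D k y hy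
  exact (hx m d n μ ι (cfg hC) W Lam hLam D k y hy).toCl

end Pool.Agent.Results.MP_3703a7_ag.HodgePowers
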