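import Pool.Agent.helper88.SJ.YAll
import Pool.Agent.helper88.SJ.Conf
import Pool.Agent.helper34.SJ.AlgS

/-!
# The Hodge conjecture for the powers of Jacobians of cyclic covers of the line with few endomorphisms (reserve)

Let `C_i` be cyclic covers of the line, branched over infinity and ANY distinct points `a_ij` (for instance in a number
field), `A_i` the new parts of their Jacobians. Suppose that every endomorphism of `A_i` is a rational combination of the
powers of `ζ`, that there are no nonzero homomorphisms `A_i → A_i'`, `i ≠ i'`, and that, for every `i`, either all eigenspaces of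
`ζ` in `H_1(A_i)` are indefinite and one has signature `(1, n_i - 1)`, or `d_i` is prime, `μ_i = 1`, `3 ≤ n_i + 1 < d_i`. Then
EVERY rational Hodge class on EVERY complex torus isogenous to `∏ A_i^{e_i} × B`, `B` of CM type, is algebraic.

The Hodge Lie algebra is determined by its centralizer (the endomorphisms): `VRB`, `WHM`, `WKT`, `WKK` (Galois
conjugation, the argument of Serre and Ribet: a semisimple Lie algebra acting irreducibly which contains an element with two
eigenvalues, one of them simple, or with suitable multiplicities, is `sl_n`).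
-/

namespace Pool.Agent.helper88.Reserve.HodgeSmallEnd

open MeasureTheory
open Pool.Agent.HC Pool.Agent.HC.SJ Pool.Agent.SJ

theorem typ {d n : ℕ} {μ : Fin (n + 1) → ℕ} (hP : Pool.Agent.S5.Par d μ) (h : TypeE d μ) :
    Pool.Agent.S5.Typ d μ := by
  obtain ⟨hn, h | h⟩ := h
  · obtain ⟨h1, h2, -⟩ := Pool.Agent.S5.t_WPN d n μ hP
    have h3 : ∀ r : Un d, 1 ≤ Pool.Agent.S5.pn d μ (r.1 : ℕ) := by
      intro r
      have hr : 0 < (r.1 : ℕ) := by
        rcases Nat.eq_zero_or_pos (r.1 : ℕ) with h0 | h0
        · have h5 := r.2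
          rw [h0, Nat.coprime_zero_left] at h5
          have := hP.d3
          omega
        · exact h0
      obtain ⟨s, hs⟩ := h.1 r.1 hr r.1.2 r.2
      have := (h2 r s.k).2 ⟨s, hs, rfl⟩
      omega
    refine ⟨hn, Or.inl ⟨fun r => ⟨h3 r, ?_⟩, ?_⟩⟩
    · have := (h1 r).2
      have := h3 (ng r)
      omega
    · obtain ⟨s, hs⟩ := h.2
      refine ⟨⟨s.r, s.cop⟩, le_antisymm ?_ (h3 _)⟩
      by_contra hc
      push_neg at hc
      obtain ⟨s0, a0, b0⟩ := (h2 ⟨s.r, s.cop⟩ 0).1 (by omega)
      obtain ⟨s1, a1, b1⟩ := (h2 ⟨s.r, s.cop⟩ 1).1 hc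
      have e0 := hs s0 (Fin.ext a0)
      have e1 := hs s1 (Fin.ext a1)
      rw [e0] at b0
      rw [e1] at b1
      omega
  · exact ⟨hn, Or.inr h⟩

/-- All branch points, if the `A_i` have no other endomorphisms than `ℚ(ζ)` and no homomorphisms between each other
(`SmallEnd`), and are of the type `TypeE`: every rational Hodge class on every torus isogenous to `∏ A_i^{e_i} × B`,
`B` of CM type, is algebraic. -/
theorem result (m : ℕ) (d n : Fin m → ℕ) (μ : ∀ i, Fin (n i + 1) → ℕ) (a : ∀ i : Fin m, Fin (n i + 1) → ℂ)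
    (ha : ∀ i, IsCov (d i) (μ i) (a i)) (ht : ∀ i, TypeE (d i) (μ i))
    (W : Type) [NormedAddCommGroup W] [NormedSpace ℂ W] [FiniteDimensional ℂ W]
    (Lam : AddSubgroup W) (hLam : IsLattice Lam) (D : JPow d n μ a W Lam) (hD : SmallEnd D)
    (k : ℕ) (y : ExteriorAlgebra ℝ W) (hy : IsHodgeCl Lam k y) : AlgCl W Lam y :=
  (Pool.Agent.S5.T_WFE m d n μ a ha (fun i => typ ⟨(ha i).hd, (ha i).hn, (ha i).pos,
    (ha i).lt, (ha i).inf⟩ (ht i)) W Lam hLam D hD.endo hD.hom k y hy).toCl

end Pool.Agent.helper88.Reserve.HodgeSmallEnd
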