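import Pool.Agent.helper88.CM.Central

/-!
# Almost all CM types of a CM field with large central part are nondegenerate

`centralAut E` is the group of automorphisms of `E` induced by central elements of the Galois
group of the Galois closure (all automorphisms if `E` is abelian over the rationals); its order
is `2 h` for an integer `h`, because it contains complex conjugation.
-/

namespace Pool.Agent.Results.MP_3703a7_ag.NondegenerateTypes

open Pool.Agent.helper88.CM NumberField

theorem result : ∃ C : ℝ, ∀ (E : Type) [Field E] [NumberField E] [IsCMField E] (h : ℕ),
    Nat.card (centralAut E) = 2 * h →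
    (Nat.card {Φ : CMType E // ¬ Nondegenerate E Φ} : ℝ) ≤
      ((Module.finrank ℚ E : ℝ) / (2 * h)) * ((oddCharacters E 2 : ℝ) / Real.sqrt h +
        (2 * (oddCharacters E 4 : ℝ) + 3 * (oddCharacters E 6 : ℝ) + C) / h) *
        Nat.card (CMType E) :=
  central

end Pool.Agent.Results.MP_3703a7_ag.NondegenerateTypes
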