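import Pool.Agent.helper76.UR.Fin

/-!
# Tate characters of Fermat varieties whose degree has few small prime factors

`π : Fin (2 d) → Fin s` describes a product of `s` Fermat varieties of degree `m` with `2 d`
coordinates. Let `P` be the set of the prime factors `p ≤ 12 d + 1` of `m`. If `P ⊆ {2, 3, 5, 7}`
and `420 ∤ m`, or `P` is contained in one of `{2, 3, 11}`, `{2, 3, 13}`, `{2, 3, 17}`, or `4 ∤ m`
and `P ⊆ {2, 3, 19}`, then every Tate character is trivial up to standard elements (pairs and
Davenport–Hasse elements) and Lefschetz classes.

## Why Lefschetz classes are algebraic (not formalised)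

Let `b_1, …, b_s` (the blocks) be vectors of nonzero residues modulo `N` with sum zero, with
`k_l ≥ 3` entries, `k = ∑ k_l`. Let `X` be the product of the Fermat varieties of degree `N` and
dimensions `k_l - 2`, and `Y` its quotient by the kernel of the character `b = (b_1, …, b_s)`.
Suppose that the system of blocks is ruled: some multiset consisting of `n_l` copies of `b_l`
contains more than `∑ n_l` disjoint nonempty multisets with sum zero. Then there are vectors
`w_j ∈ ℕ^k`, `w_j ≠ 0`, `w_j · b = 0`, and rational numbers `c_j > 0`, `n_l ≥ 0` such that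
`∑ c_j w_j` is constant `n_l` on the block `l` and `∑ c_j > ∑ n_l`. By linear programming we can
assume that, modulo the indicator vectors of the blocks, this is the only linear relation between
the `w_j`. They are lattice points for the torus containing an open part of `Y`, namely the
rays of a fake weighted projective space `F` in which the closure `Z` of this open part (or of the
fibres of a fibration of it, when there are few `w_j`) is a component of the intersection of the
hypersurfaces `∑_{i ∈ b_l} ∏_j y_j ^ (w_j)_i = 0`. For the grading `deg y_j = c_j` these have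
degrees `n_l`, and the anticanonical degree of `F` is `∑ c_j > ∑ n_l`. By adjunction (step by step,
on normalisations, where the different is effective) the canonical divisor of the normalisation of
`Z` has negative degree on general complete intersection curves. So `Z` is uniruled (Miyaoka and
Mori) if its dimension is positive. If its dimension is zero, the same inequality shows that the
fibres are single points, and that `Y` is birational to a variety of the same kind times a torus;
so `Y` is uniruled in all cases. (In terms of toric geometry: the Fine interior is empty.)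

If `∑ (k_l - 2) = 3`, the threefold `Y` is uniruled, and by Bloch and Srinivas its third cohomology
is, through algebraic correspondences, a direct summand of the first cohomology of curves
(twisted). It contains the line attached to `b`. The same holds for the cohomology of the Fermat
curve attached to one vector with three entries. If `v` and `w` are two such pieces and `v + w` is
a Tate character, it therefore corresponds to a Tate class in `H^1(C) ⊗ H^1(C')` for two curves,
which is algebraic (Lefschetz's theorem on `(1, 1)`-classes, or Faltings). By the inductive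
structure (Shioda and Katsura) the Tate class attached to `v + w` is algebraic.
-/

namespace Pool.Agent.Results.MP_3703a7_ag.RuledClasses

open Pool.Agent.helper76.FV Pool.Agent.helper34.DH Pool.Agent.helper76.LP Pool.Agent.helper76.UR

theorem result (d m : ℕ) (hd : 0 < d) (hm : 0 < m) (P : Finset ℕ)
    (hP : ∀ p, p ∈ P ↔ p.Prime ∧ p ∣ m ∧ p ≤ 12 * d + 1)
    (h : (P ⊆ {2, 3, 5, 7} ∧ ¬ 420 ∣ m) ∨ P ⊆ {2, 3, 11} ∨ P ⊆ {2, 3, 13} ∨ P ⊆ {2, 3, 17} ∨
      (¬ 4 ∣ m ∧ P ⊆ {2, 3, 19}))
    {s : ℕ} (π : Fin (2 * d) → Fin s) (a : Fin (2 * d) → ZMod m) :
    IsTateChar m π a ↔ (∀ i, a i ≠ 0) ∧ BlockZero π a ∧ LefEquiv (pts a) 0 := by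
  have key : ∀ (s : Finset ℕ), P ⊆ s → ∀ z, Lam m z → z ≤ 12 * d + 1 →
      z = 4 ∨ (z ∈ s ∧ z ≠ 2) := by
    intro s hs z hz hz1
    rcases hz.2 with h1 | h1
    · exact Or.inl h1
    · right
      refine ⟨hs ((hP z).2 ⟨h1.1, hz.1, hz1⟩), ?_⟩
      rintro rfl
      exact absurd h1.2 (by decide)
  have h4 : ¬ 4 ∣ m → ∀ z, Lam m z → z ≠ 4 := by
    rintro h z hz rfl
    exact h hz.1
  have h5 : ∀ (s : Finset ℕ), P ⊆ s → 5 ∉ s → ¬ 420 ∣ m := by
    intro s hs h5 h
    exact h5 (hs ((hP 5).2 ⟨by norm_num, (by norm_num : 5 ∣ 420).trans h, by omega⟩))
  refine tate_lef d m hm ?_ ?_ π a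
  · intro x y hx hy hxy hy1
    rcases h with ⟨h, h420⟩ | h | h | h | ⟨h0, h⟩
    · have h1 := key _ h x hx (by omega)
      have h2 := key _ h y hy (by omega)
      simp only [Finset.mem_insert, Finset.mem_singleton] at h1 h2
      have h3 : x = 3 ∨ x = 4 ∨ x = 5 ∨ x = 7 := by omega
      have h5 : y = 3 ∨ y = 4 ∨ y = 5 ∨ y = 7 := by omega
      rcases h3 with rfl | rfl | rfl | rfl <;> rcases h5 with rfl | rfl | rfl | rfl <;>
        first | omega | decide
    · have h1 := key _ h x hx (by omega)
      have h2 := key _ h y hy (by omega)
      simp only [Finset.mem_insert, Finset.mem_singleton] at h1 h2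
      have h3 : x = 3 ∨ x = 4 ∨ x = 11 := by omega
      have h5 : y = 3 ∨ y = 4 ∨ y = 11 := by omega
      rcases h3 with rfl | rfl | rfl <;> rcases h5 with rfl | rfl | rfl <;>
        first | omega | decide
    · have h1 := key _ h x hx (by omega)
      have h2 := key _ h y hy (by omega)
      simp only [Finset.mem_insert, Finset.mem_singleton] at h1 h2
      have h3 : x = 3 ∨ x = 4 ∨ x = 13 := by omega
      have h5 : y = 3 ∨ y = 4 ∨ y = 13 := by omega
      rcases h3 with rfl | rfl | rfl <;> rcases h5 with rfl | rfl | rfl <;>
        first | omega | decide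
    · have h1 := key _ h x hx (by omega)
      have h2 := key _ h y hy (by omega)
      simp only [Finset.mem_insert, Finset.mem_singleton] at h1 h2
      have h3 : x = 3 ∨ x = 4 ∨ x = 17 := by omega
      have h5 : y = 3 ∨ y = 4 ∨ y = 17 := by omega
      rcases h3 with rfl | rfl | rfl <;> rcases h5 with rfl | rfl | rfl <;>
        first | omega | decide
    · have h1 := key _ h x hx (by omega)
      have h2 := key _ h y hy (by omega)
      have h6 := h4 h0 x hx
      have h7 := h4 h0 y hy
      simp only [Finset.mem_insert, Finset.mem_singleton] at h1 h2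
      have h3 : x = 3 ∨ x = 19 := by omega
      have h5 : y = 3 ∨ y = 19 := by omega
      rcases h3 with rfl | rfl <;> rcases h5 with rfl | rfl <;> first | omega | decide
  · intro _
    rcases h with ⟨h, h420⟩ | h | h | h | ⟨h0, h⟩
    · exact h420
    · exact h5 _ h (by decide)
    · exact h5 _ h (by decide)
    · exact h5 _ h (by decide)
    · exact h5 _ h (by decide)

end Pool.Agent.Results.MP_3703a7_ag.RuledClasses
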