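import Pool.Agent.helper88.TC.All

/-!
# The Tate conjecture for products of powers of Jacobians of superelliptic curves and Fermat curves

`l` is an odd prime number, `C_i : y^l = ∏_j (x - a_ij)^(μ_ij)`, `i < k`, are curves over `ℚbar` with `n_i + 1 ≥ 2` distinct branch points `a_ij` and
infinity, `0 < μ_ij < l`, `l` not dividing `∑_j μ_ij` (every cyclic cover of the line of degree `l` is of this form after moving a branch point to
infinity). Let `K = ℚ(a_ij, ζ_l)` be the field generated by the branch points of all curves and `ζ_l`. Conditions:

* (`Indep`) for every curve: a product of quotients of differences of its branch points, `∏_(j<j') (a_ij - a_ij')^(e_jj')` with `∑ e_jj' = 0`, is an `l`-th power in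
  `K` only if all `e_jj'` are divisible by `l` (no condition if there are three branch points, `n_i = 1`; the quotients do not depend on
  the coordinate, so two of the branch points may be `0` and `1`);
* (`Sep`) for every two different curves with at least four branch points: some quotient of differences of one of the curves is not in the group
  of those of the other curve and `K^l`, or the branch points are the same, up to an affine map, but the weights are not proportional modulo `l`
  (if there are four: the numbers `(μ_j + μ_k)^2` are not proportional).

For instance rational branch points such that every difference of two branch points of the same curve, but one, is divisible exactly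
once by a prime number of its own. (`Pool/Agent/helper76/GJ/Rat2.lean`, `Rat3.lean`: `Ind_of_rat`, `Far_of_rat`, and `exists_rat`: such INTEGRAL branch points
exist for all `l`, `k`, `n_i`, `μ_ij`.) The exponents `e_i ≥ 0` and the degrees `m_j` of the Fermat curves `F_j` are arbitrary.

THEOREM. On every abelian variety `A` isogenous to `∏ Jac(C_i)^(e_i) × ∏ Jac(F_j)`, in every degree `2b`: every class `X ∈ H_(2b)(A, ℚ_l)` with
`σ X = χ(σ)^b X` for all `σ` in the Galois group of some number field is a `ℚ_l`-linear combination of classes of algebraic cycles.

There are no hypotheses on the action of the Galois group: it acts on the class groups of the rings of functions on the curves minus the branch points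
(minus the points at infinity of the Fermat curves), which are the groups of `ℚbar`-points of the Jacobians up to finite groups, and
`V_l(J) = Hom(ℚ_l, J(ℚbar))` (homomorphisms vanishing on an open subgroup). The comparison isomorphism `V_l(J_i) = ℚ_l ⊗ H_1(C_i(ℂ), ℤ)` is
an isomorphism with three properties (`IsComp`), which the usual one has: it commutes with the automorphisms of the curves (roots of unity),
and the class of the curve in its Jacobian is a Tate class. These abelian varieties have no complex multiplication (if `n_i ≥ 2`), and their
Tate classes are not generated by divisors.

## The proof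

(1) (`Pool/Agent/helper39/GJ/SpecR.lean`, `SpecT.lean`) Let `π = 1 - ζ`, `T = T_l(J_i)`. The classes killed by `π` have an invariant in
`D = 𝔽_l^(n+1) / 𝔽_l μ` (orders at the branch points), `T / π T = D`; if `σ` fixes the branch points and `ζ` then it acts on `T` as `1 + π A`, where the
leading term `A` is given on `D` by the Kummer characters `κ_kj` of `a_k - a_j` at `σ`: `(A d)_k = ∑_j κ_kj (d_k μ_j - μ_k d_j)`. These are
exactly the symmetric endomorphisms of `D` for a nondegenerate form.

(2) (`SpecL.lean`, `SpecS.lean`, `SpecU.lean`, `SpecV.lean`) By Kummer theory and the conditions `Indep` and `Sep` all families of leading terms which are needed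
occur; their commutators generate, by the lemma of Goursat and Ribet for graded Lie algebras, all leading terms allowed by the
unitary groups. So the Lie algebra of the image of the Galois group contains `∏ su(V_l(J_i))` (`SUPG_stmt`): Tate classes are killed by it.

(3) (`Pool/Agent/helper47/TK/SpecA.lean`, `SpecN.lean`, `SpecD.lean`, `SpecH.lean`, `SpecP.lean`, `Pool/Agent/helper76/TK/SpecC.lean`) Frobenius elements. By a weak
form of the theorem of Chebotarev (from the pole of the Dedekind zeta function) there are a prime `p`, a place over `p` of degree
one and a Frobenius element `σ` whose matrix on every `T_l(J_i) / π T_l(J_i)` is cyclic. A relation in the class group of the curve over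
the residue field (`KD9`, `KD10`: the points `(u^(p^m); ± g(a_j) v_j^(p^m))`, `g` monic of degree `k` over `𝔽_p`, of the cover `y_j^(p-1) = x - a_j`, on a hyperplane)
and specialisation of classes give `∑_k c_k σ^(n-k) = 0` on `V_l(J_i)`, `c_k = ∑_g [χ(g)]`; so the determinant of `σ` over `ℚ_l(ζ)` is the Jacobi sum
`± c_n`. With (2): a power of `(det σ)` acts on `X` as `p` to the power `b`. The same for the Fermat curves (`Pool/Agent/helper39/FJ`).

(4) (`Pool/Agent/helper88/TK/SpecK.lean`, `Pool/Agent/helper76/GJ/SpecC.lean`) So `X` is a combination of integral classes killed by
`su(H_1(C_i, ℝ))` on which this endomorphism of the complex torus acts as `p^(ν b)`; the valuations of Jacobi sums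
(theorem of Stickelberger) are the Hodge numbers, so they are Hodge classes, and by the hand-in UnitaryCyclic
(`Pool.Agent.SJ.T_SU2`, which uses new algebraic cycles on products of the Jacobians and the Hodge conjecture for CM tori) they are
combinations of classes of algebraic cycles (`AlgCl`, `Pool/Agent/helper34/SJ/AlgS.lean`).

The theorem for the data of `Pool/Agent/helper39/GJ/Defs.lean` is `Pool.Agent.TKAll.T_GT` (`Pool/Agent/helper47/TK/All.lean`); the short definitions used
here are in `Pool/Agent/helper88/TC/Def.lean`, the equivalence in `Pool/Agent/helper88/TC/Spec.lean`.
-/

namespace Pool.Agent.helper88.Reserve.TateCyclicComp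

open Pool.Agent.HC Pool.Agent.TC

/-- The Tate conjecture with coefficients `ℚ_l`, in all degrees, for every complex torus `A` isogenous to
`∏ Jac(C_i)^(e_i) × ∏ Jac(F_j)`, `C_i : y^l = ∏_j (x - a_ij)^(μ_ij)` curves with algebraic branch points whose quotients of differences are
independent modulo `l`-th powers in `K = ℚ(a_ij, ζ_l)` (`Indep`) and which are pairwise different (`Sep`), `F_j` arbitrary Fermat curves: every
Tate class over a number field is a `ℚ_l`-linear combination of integral algebraic classes. -/
theorem result (l : ℕ) [Fact l.Prime] (hl : l ≠ 2) (D : Cfg l) (hI : D.Indep) (hs : D.Sep) (ι : Emb)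
    (A : CT) [FiniteDimensional ℂ A.W] (hA : IsLattice A.Lam) (T : Tor D ι A) (hT : T.IsComp)
    (S : Finset Qb) (b : ℕ) (X : HL A l) (hX : T.IsTate S b X) : AlgL X :=
  TC l hl D hI hs ι A hA T hT S b X hX

end Pool.Agent.helper88.Reserve.TateCyclicComp
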