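import Pool.Agent.helper88.SJ.All3
import Pool.Agent.helper88.SJ.Kil
import Pool.Agent.helper34.SJ.AlgS

/-!
# Hodge classes invariant under special unitary groups on products of powers of Jacobians of cyclic covers

Let `C_a : y^d = ∏_j (x - a_j)^(μ_j)`, `n + 1` distinct points `a_j`, `d ≥ 3`, `0 < μ_j < d`, `d` not dividing `∑ μ_j` (so infinity
is a branch point), and let `A_a` be the new part of its Jacobian (the part where `ζ_d` acts with primitive
eigenvalues; for `d` prime the whole Jacobian).  `H_1(A_a, ℚ)` is a vector space of dimension `n` over
`K = ℚ(ζ_d)`.  Every cyclic cover of the line of degree `d` all of whose branch points have a non trivial local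
monodromy for the primitive characters is of this kind (move one branch point to infinity).

THEOREM. Let `T = W ⧸ Lam` be a complex torus isogenous to a product `∏ A_i^(m_i) × B`, `A_i` as above (for different `d_i`,
`n_i`, `μ_i`, `a_i`; there is no condition on the exponents, on the branch points and on the multiplicities `m_i`), and
`B` a torus of CM type.  Every rational Hodge class `x ∈ H_2k(T, ℚ)` which is invariant under the special unitary
groups `SU(H_1(A_i, ℝ))` (for `K_i` and the polarisation; acting diagonally on `A_i^(m_i)`) is algebraic.

In the statement the group `SU`, which is connected, is given by its Lie algebra (`InSU`).  By the first fundamental theorem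
of invariants these are all Hodge classes in the algebra generated by the homomorphisms between the factors
(intersection forms and `ζ^j`), the determinants `⋀^n` of the eigenspaces of `ζ` on the `H_1(A_i^(m_i), ℂ)` (mixed
determinants of several copies also) and the homology of `B`.  For instance:
* if the Hodge group of `∏ A_i` contains `∏ SU(H_1(A_i, ℝ))`, then all Hodge classes on all `∏ A_i^(m_i) × B`;
* all classes invariant under `∏ SL_{n_i}(K_i ⊗ ℝ)` on `∏ A_i × B` (`Pool.Agent.SJ.T_Det2`), and all Weil classes: if `F = ℚ(A)`
  is a field of endomorphisms of `∏ A_i × B` acting on the `A_i` through `ℚ(ζ_{d_i})` and on `B` in any way, all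
  eigenvalues of `A` on `W` having the same multiplicity `m` (`T` is of Weil type), then all the classes in
  `⋀^{2m}_F H_1(T, ℚ)` (`Pool.Agent.SJ.T_Weil2`).
The lattices `IsJac` (the Jacobians) exist for every curve: `Pool.Agent.HC.SJ3.T_P3a`.

## The definitions

`Pool/Agent/helper88/SJ/Kil.lean`, `Pool/Agent/helper47/SJ/Defs3.lean` (`SJPow`), `Pool/Agent/helper47/SJ/Defs.lean`,
`Pool/Agent/helper34/SJ/AlgS.lean`, `Pool/Agent/helper76/SJ/ZDefs.lean`, `Pool/Agent/helper88/SJ/VDefs.lean`, `Pool/Agent/helper54/HC/TDefs.lean`.  The algebraic classes
`AlgCl` are the real linear combinations of classes obtained from: the class of a point; the classes of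
holomorphic maps from compact ball quotients (all Hodge classes on CM tori are of this kind, hand-in HodgeCM); the
curves `C_a` in `A_a`; the images in `A_a × A_b` of the varieties `Z_{a,b}`; the images in `A_a × A_a' × A_F` of the
varieties `V`; by images of products under homomorphisms, and by the intersection of `x × [P]` with `W × {pt}`.
Every one of these is a class of an algebraic cycle.

## The proof

`Z_{a,b}` is the set of all `(x_i, y_i) ∈ C_a`, `(x'_i, y'_i) ∈ C_b`, `i = 1, ..., n`, such that the polynomials
`P = ∏ (t - x_i)`, `Q = ∏ (t - x'_i)` satisfy `Q(b_j) / f_b'(b_j) = P(a_j) / f_a'(a_j)` for all `j`, and `∏ y_i = κ ∏ y'_i`.  (This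
is Schoen's cycle for the degenerate etale cover: two lines glued at the branch points.)  The component of its
class in `det V_r(A_a) ⊗ det V_{-r}(A_b)` is an integral over the space of all polynomials `P` which tends, as
`b → a`, to a positive number.  So for near `a`, `b` these determinant classes are algebraic; by products,
intersections and connectedness of the space of parameters for all `a`, `b`.

If two branch points `a_0`, `a_1` with `μ_0 + μ_1 ≢ 0` come together, `A_a` degenerates into `A_a' × A_F`, where `C_a'` has
the exponents `(μ_0 + μ_1, μ_2, ...)` and `F : w^d = t^(μ_0) (t - 1)^(μ_1)` is a quotient of a Fermat curve.  `V` is the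
variety (of dimension `n`) in `C_a^n × C_a'^(n-1) × F` given by `P(a_0) / f_a'(a_0) = t s`, `P(a_1) / f_a'(a_1) = (1 - t) s`,
`s = Q(a'_0) / f_a''(a'_0)`, and `P(a_j) / f_a'(a_j) = Q(a'_(j-1)) / f_a''(a'_(j-1))`, `j ≥ 2`, and by the condition on the products of
the `y_i`.  The component of its class in `det V_r(A_a) ⊗ det V_{-r}(A_a') ⊗ V_{-r}(A_F)` is an integral which, divided by
a power of `a_1 - a_0`, tends to a non zero number: it is not zero for `a_0`, `a_1` near to each other.  So, by induction on
`n`, a class in the space generated by the determinants is algebraic on `∏ A_i^(m_i) × B` iff the corresponding class is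
algebraic on a torus of CM type (a product of Jacobians of curves `F` and `B`; if all `μ_j = d/2`, the curve
`y^d = (x^(n+1) - 1)^(d/2)` takes the place of the `F`); and there it is a Hodge class since the Hodge type of its
Galois conjugates does not change.  A general invariant class is, by the first fundamental theorem of invariants for
`SL_n`, a combination of products of contractions and determinants; the contractions are classes of algebraic
correspondences, and they are moved into the cycles.
-/

namespace Pool.Agent.Results.MP_3703a7_ag.UnitaryCyclic

open Pool.Agent.HC Pool.Agent.SJ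

/-- Every rational Hodge class killed by the Lie algebras `su(H_1(A_i, ℝ))`, on a torus isogenous to a product of
powers of new parts `A_i` of Jacobians of cyclic covers of the line and a torus of CM type, is algebraic. -/
theorem result :
    ∀ (W : Type) [NormedAddCommGroup W] [NormedSpace ℂ W] [FiniteDimensional ℂ W]
      (Lam : AddSubgroup W), IsLattice Lam → ∀ (D : SJPow W Lam)
      (k : ℕ) (x : ExteriorAlgebra ℝ W), IsHodgeCl Lam k x → D.Killed x → AlgCl W Lam x :=
  fun W _ _ _ Lam hLam D k x hx hk => (T_SU2 W Lam hLam D (fun _ => trivial) k x hx hk.kill).toCl

end Pool.Agent.Results.MP_3703a7_ag.UnitaryCyclic
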