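import Pool.Agent.helper34.SJ.All
import Pool.Agent.helper34.SJ.AlgS

/-!
# Hodge classes invariant under SL on products of Jacobians of cyclic covers of the line and CM tori

Let `C : y^d = f(x)`, `f` a separable polynomial of degree `n + 1`, `d ≥ 3`, `d` not dividing `n + 1`, and let `A` be the new
part of its Jacobian (the part where `ζ_d` acts with primitive eigenvalues; for `d` prime the whole Jacobian).
`H_1(A, ℚ)` is a vector space of dimension `n` over `K = ℚ(ζ_d)`.  (A curve `y^d = f(x)` with `d` dividing the degree
`n + 2` of `f` is of this kind: move one branch point to infinity.)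

THEOREM. Let `T = W ⧸ Lam` be a complex torus isogenous to a product `∏ A_i × B`, `A_i` as above (for different `d_i`,
`n_i`, `f_i`; there is no condition on the branch points), and `B` a torus of CM type.  Every rational Hodge class
`x ∈ H_2k(T, ℚ)` which is invariant under the groups `SL_{n_i}(K_i ⊗ ℝ)` acting on the `H_1(A_i, ℝ)` is
algebraic.

These are the classes in the space generated by the determinants `⋀^{n_i}` of the eigenspaces of `ζ` on the
`H_1(A_i, ℂ)` and the homology of `B`.  For instance all Weil classes: if `F = ℚ(A)` is a field of endomorphisms of `T`
acting on the `A_i` through `ℚ(ζ_{d_i})` and on `B` in any way, all eigenvalues of `A` on `W` having the same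
multiplicity `m` (`T` is of Weil type), then the classes in `⋀^{2m}_F H_1(T, ℚ)` are Hodge classes, invariant under
these groups, so they are algebraic (`Pool.Agent.SJ.T_Weil`, see `Weil_stmt` in `Pool/Agent/helper47/SJ/Defs.lean`).
The lattices `IsJac` (the Jacobians) exist for every curve: `Pool.Agent.HC.SJ3.T_P3a`.

## The definitions

`Pool/Agent/helper47/SJ/Defs.lean`, `Pool/Agent/helper34/SJ/AlgS.lean`, `Pool/Agent/helper76/SJ/ZDefs.lean`,
`Pool/Agent/helper54/HC/TDefs.lean`.  The algebraic classes `AlgCl` are the real linear combinations of classes obtained from: the class of a point; the classes of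
holomorphic maps from compact ball quotients (all Hodge classes on CM tori are of this kind, hand-in HodgeCM);
the curves `C_a` in `A_a`; the images in `A_a × A_b` of the varieties `Z_{a,b}`; by images of products under
homomorphisms, and by the intersection of `x × [P]` with `W × {pt}`.  Every one of these is a class of an algebraic
cycle.

## The proof

`Z_{a,b}` is the set of all `(x_i, y_i) ∈ C_a`, `(x'_i, y'_i) ∈ C_b`, `i = 1, ..., n`, such that the polynomials
`P = ∏ (t - x_i)`, `Q = ∏ (t - x'_i)` satisfy `Q(b_j) / f_b'(b_j) = P(a_j) / f_a'(a_j)` for all `j`, and `∏ y_i = κ ∏ y'_i`.  (This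
is Schoen's cycle for the degenerate etale cover: two lines glued at the branch points.)  The component of its
class in `det V_r(A_a) ⊗ det V_{-r}(A_b)` is an integral over the space of all polynomials `P` which tends, as
`b → a`, to a positive number.  So for near `a`, `b` these determinant classes are algebraic; by products,
intersections and connectedness of the space of parameters for all `a`, `b`.  For `a` the roots of unity `A_a` is of
CM type.  So a class in the space generated by the determinants is algebraic on `∏ A_{a_i} × B` iff the
corresponding class is algebraic on a torus of CM type; and there it is a Hodge class since the Hodge type of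
its Galois conjugates does not change.
-/

namespace Pool.Agent.Results.MP_3703a7_ag.WeilCyclic

open Pool.Agent.HC Pool.Agent.SJ

/-- Every rational Hodge class invariant under the groups `SL_n(ℚ(ζ_d) ⊗ ℝ)` of the factors, on a torus isogenous
to a product of new parts of Jacobians of curves `y^d = f(x)` and a torus of CM type, is algebraic. -/
theorem result :
    ∀ (W : Type) [NormedAddCommGroup W] [NormedSpace ℂ W] [FiniteDimensional ℂ W]
      (Lam : AddSubgroup W), IsLattice Lam →
    ∀ D : SJData W Lam, (∀ i j, D.μ i j = 1) →
    ∀ (k : ℕ) (x : ExteriorAlgebra ℝ W), IsHodgeCl Lam k x → D.Inv x → AlgCl W Lam x :=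
  fun W _ _ _ Lam hLam D hD k x hx hinv => (T_Det W Lam hLam D hD k x hx hinv).toCl

end Pool.Agent.Results.MP_3703a7_ag.WeilCyclic
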